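import Mathlib
import Pool.Agent.N65.Tail

/-!
# The Ramanujan conjecture for `GL(4)` over number fields: the Satake parameters are bounded at almost all places

Let `K` be a number field and `π` a unitary cuspidal automorphic representation of `GL_4` over `K`, unramified at the
finite places outside the finite set `S`, with Satake parameters `α_{i,v}`, `v ∉ S`. The Ramanujan conjecture says that
all `|α_{i,v}|` are one. Known is that `max_i |α_{i,v}| ≤ (N v)^ε` outside a set of places of density zero, for every
`ε > 0` (Kim). We show that the parameters are bounded outside sets of arbitrarily small density: for every `T > 1` the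
places with `max_i |α_{i,v}| ≥ T` have upper Dirichlet density at most

  `((1 + √m / V) / U)²`, `U = T - 1/T`, `V = T + 1/T`,

where `m` is the order of the pole of `L(s, Λ²π × (Λ²π)~)` at `s = 1`. For large `T` this is about `T^{-2}`; it is
smaller than one for `T ≥ 2` if `m ≤ 1`, and for `T ≥ 9/4` if `m ≤ 4`.

The structure `Cuspidal` (`Pool/Agent/N65/Exc.lean`) and the definitions `SimplePole`, `ExteriorSquare`
(`Pool/Agent/N65/Tail.lean`) list what is used of `π`: the unramified local components are unitary; the Rankin-Selberg
Euler product `L^S(s, π × π~)` converges absolutely for `Re s > 1` and has a simple pole at `s = 1` (Jacquet, Shalika); the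
same for `Λ²π`, which is an automorphic representation of `GL_6` (Kim), with a pole of order `m`.

Proof. Let `e_1`, `e_2` be the elementary symmetric functions of the parameters. By unitarity `|e_3| = |e_1|` and
`|e_4| = 1`, and the equation for the parameters gives `R - 1/R ≤ |e_1| + |e_2| / (R + 1/R)` for the absolute value
`R > 1` of a parameter. Now use the mean squares of `e_1` and `e_2`.
-/

set_option autoImplicit false

namespace Pool.Agent.Results.MP_8410ab_nt.BoundedParametersGL4

open NumberField IsDedekindDomain Pool.Agent.N65.Ram

/-- **The Satake parameters for `GL(4)` are bounded outside sets of small density.** -/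
theorem result {K : Type} [Field K] [NumberField K] {S : Finset (HeightOneSpectrum (𝓞 K))}
    (α : Places S → Fin 4 → ℂ) (h : Cuspidal α) (hp : SimplePole α) {m : ℝ} (hm : 0 < m)
    (hL : ExteriorSquare m α) (T : ℝ) (hT : 1 < T) :
    ∃ C : ℝ, ∀ σ : ℝ, 1 < σ → σ ≤ 2 →
      (Summable fun v : {v : Places S // ∃ i, T ≤ ‖α v i‖} => (Nm v.1.1 : ℝ) ^ (-σ)) ∧
      ∑' v : {v : Places S // ∃ i, T ≤ ‖α v i‖}, (Nm v.1.1 : ℝ) ^ (-σ) ≤
        ((1 + √m / (T + 1 / T)) / (T - 1 / T)) ^ 2 * Real.log (1 / (σ - 1)) + C :=
  tail h hp hm hL hT

end Pool.Agent.Results.MP_8410ab_nt.BoundedParametersGL4
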