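import Mathlib
import Pool.Agent.N65.Tail

/-!
# The Ramanujan conjecture for `GL(n)` over number fields: the number of the places with large Satake parameters

Let `K` be a number field and `π` a unitary cuspidal automorphic representation of `GL_n` over `K`, unramified at the
finite places outside the finite set `S`, with Satake parameters `α_{i,v}`, `v ∉ S`. Write `N v` for the norm of `v`,
`R_v = max_i |α_{i,v}| ≥ 1` and `r = [n/2]`. The Ramanujan conjecture says `R_v = 1`; known for all `v` is
`R_v ≤ (N v)^{1/2 - 1/(n² + 1)}` (Luo, Rudnick and Sarnak). We bound the number of the exceptional places: for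
`0 < θ ≤ 1/2` and `δ > 0`, the number of the places with `N v ≤ x` and `R_v ≥ (N v)^θ` is

* `O(x^{r (1 - 2 θ) + δ})` for all `n` and `K`;
* `O(x^{1 - 2 θ + δ})` for `n = 4` (for `n = 2, 3` this is the first part).

So for `θ > 1/2 - 1/(2 r)` it is `O(x^c)` with `c < 1`, and `R_v < (N v)^θ` outside a set of places of density zero:
outside such sets the exponent `1/2 - 1/(n² + 1)` may be replaced by `1/2 - 1/(2 r) + ε`, for instance by `1/4 + ε` for
`n = 5` and by `1/3 + ε` for `n = 6, 7`. For `n ≤ 4` and exponent `ε` the density is known to be zero (Ramakrishnan, Kim).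
The same bounds hold for the series of `(N v)^{-c}` over these places.

The structure `Cuspidal` (`Pool/Agent/N65/Exc.lean`) lists what is used of `π`: the unramified local components are
unitary, and the Rankin-Selberg Euler product `L^S(s, π × π~)` converges absolutely for `Re s > 1` (Jacquet, Shalika). For
`n = 4` we also use that the product `L^S(s, Λ²π × (Λ²π)~)` converges absolutely for `Re s > 1`, which is known as
`Λ²π` is automorphic (Kim).

Proof. Newton's identities `k e_k = ∑_j ± p_j e_{k-j}` and the inequality of Cauchy and Schwarz give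
`|e_k|² ≤ ∑_j |p_j|² |e_{k-j}|²`, and by induction `∑_v |e_k(α_v)|² (N v)^{-kσ} < ∞` for `σ > 1`. By unitarity
`|e_{n-k}| = |e_k|`, and `e_n` has absolute value one. So if `R = R_v` is not too small, the equation for the parameters
shows that `|e_k| ≥ R^k / n` for some `1 ≤ k ≤ r`.

The exponent `r (1 - 2 θ)` is what places with `r` parameters of absolute value `(N v)^θ` proportional to the `r`-th
roots of unity would give; at such places `p_1 = ... = p_{r-1} = 0`.
-/

set_option autoImplicit false

namespace Pool.Agent.Results.MP_8410ab_nt.ExceptionalParameters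

open NumberField IsDedekindDomain Pool.Agent.N65.Ram

/-- What is used of the exterior square `Λ²π` for `n = 4`, an automorphic representation of `GL_6` by Kim: the
Rankin-Selberg Euler product `L^S(s, Λ²π × (Λ²π)~)` converges absolutely for `Re s > 1`. Here `E 2` is the second
elementary symmetric function. -/
def ExteriorSquareSeries {K : Type} [Field K] [NumberField K] {S : Finset (HeightOneSpectrum (𝓞 K))} {n : ℕ}
    (α : Places S → Fin n → ℂ) : Prop :=
  ∀ σ : ℝ, 1 < σ → Summable fun x : Places S × ℕ => ‖E 2 (fun i => α x.1 i ^ (x.2 + 1))‖ ^ 2 / ((x.2 : ℝ) + 1) *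
    (Nm x.1.1 : ℝ) ^ (-(((x.2 : ℝ) + 1) * σ))

/-- **The number of the places with large Satake parameters.** -/
theorem result {K : Type} [Field K] [NumberField K] {S : Finset (HeightOneSpectrum (𝓞 K))} {n : ℕ}
    (α : Places S → Fin n → ℂ) (h : Cuspidal α) (θ c : ℝ) (hθ : 0 < θ) (hθ2 : θ ≤ 1 / 2)
    (hc : (n / 2 : ℕ) * (1 - 2 * θ) < c ∨ n = 4 ∧ ExteriorSquareSeries α ∧ 1 - 2 * θ < c) :
    (Summable fun v : {v : Places S // ∃ i, (Nm v.1 : ℝ) ^ θ ≤ ‖α v i‖} => (Nm v.1.1 : ℝ) ^ (-c)) ∧
    ∃ C : ℝ, ∀ x : ℝ, 1 ≤ x →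
      (({v : Places S | (Nm v.1 : ℝ) ≤ x ∧ ∃ i, (Nm v.1 : ℝ) ^ θ ≤ ‖α v i‖}.ncard : ℕ) : ℝ) ≤ C * x ^ c := by
  have key : 0 ≤ c ∧
      Summable fun v : {v : Places S // ∃ i, (Nm v.1 : ℝ) ^ θ ≤ ‖α v i‖} => (Nm v.1.1 : ℝ) ^ (-c) := by
    rcases hc with hc | ⟨hn, hL, hc⟩
    · refine ⟨?_, summable_large h.unitary hθ fun k hk1 hk2 => ?_⟩
      · have : (0 : ℝ) ≤ (n / 2 : ℕ) * (1 - 2 * θ) := by
          have : 0 ≤ 1 - 2 * θ := by linarith
          positivity
        linarith
      have hk0 : (0 : ℝ) < k := by exact_mod_cast hk1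
      have hkr : (k : ℝ) * (1 - 2 * θ) < c := by
        refine lt_of_le_of_lt (mul_le_mul_of_nonneg_right ?_ (by linarith)) hc
        exact_mod_cast hk2
      refine ⟨k * (c / k + 2 * θ), ?_, ?_⟩
      · have : (k : ℝ) * (c / k + 2 * θ) = c + 2 * k * θ := by
          field_simp
        linarith
      · refine summable_E h ?_ k hk1
        have h1 : 1 - 2 * θ < c / k := by
          rw [lt_div_iff₀ hk0]
          linarith
        linarith
    · subst hn
      refine ⟨by linarith, summable_large h.unitary hθ fun k hk1 hk2 => ?_⟩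
      have hk3 : k = 1 ∨ k = 2 := by omega
      rcases hk3 with rfl | rfl
      · refine ⟨c + 2 * θ, by push_cast; linarith, ?_⟩
        have := summable_E h (σ := c + 2 * θ) (by linarith) 1 le_rfl
        simpa using this
      · refine ⟨c + 2 * θ, by push_cast; linarith, ?_⟩
        have := (row_le (f := fun x : Places S × ℕ => ‖E 2 (fun i => α x.1 i ^ (x.2 + 1))‖ ^ 2)
          (fun x => by positivity) (hL (c + 2 * θ) (by linarith))).1
        simpa using this
  exact ⟨key.2, count_of_summable key.1 key.2⟩

end Pool.Agent.Results.MP_8410ab_nt.ExceptionalParameters
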