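import Pool.Agent.R398.AS.Fin
import Pool.Agent.R398.AS.Inf

/-!
# The Ramanujan conjecture for `GL(2)` over number fields: the density of the inert places

Let `E / K` be a quadratic extension of number fields and `π` a unitary cuspidal automorphic
representation of `GL_2` over `E`, with Satake parameters `α w`. The known density theorems
(Ramakrishnan: `π_w` is tempered at `9/10` of the places; Kim and Shahidi) say nothing about the places
`w` of `E` of degree two over `K`, as these have density zero among the places of `E`. We prove the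
density theorems for the places `w` above the places `v` of `K` which are inert in `E` (that is
half of the places `v` of `K`), with the Dirichlet density with respect to `N v`:

* `π_w` is tempered at `w` for at least `9/10` of the inert `v`;
* the second and the fourth moment of `|a_w|`, `a_w = α_{w,0} + α_{w,1}`, are `1` and `2` (as predicted by
  the conjecture of Sato and Tate);
* `|a_w|² ≥ Z` for at most `1 / (1 + (Z - 1)²)` of the inert places, for all `Z > 1`;
* `|a_w|² ≤ 1 - s` for at most `1 / (1 + s²)` of them, `0 < s ≤ 1`; in particular `a_w ≠ 0` for at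
  least half of them.

Condition: `π` is not dihedral, tetrahedral or octahedral, and `Ad π` and `A⁴ π = Sym⁴ π ⊗ ω^{-2}` are not
isomorphic to their conjugates under `Gal(E / K)`. The structure `CuspidalGL2` (`Pool/Agent/R398/AS/Defs.lean`)
lists what is used, all of it is known in this case: unitarity, the bound `7/64` of Kim and Sarnak,
Blomer and Brumley, the convergence of the Rankin-Selberg series of `A⁴ π` for `Re s > 1`, and, for the
partial Asai `L`-functions of `A² π = Ad π` and of `A⁴ π` and their twists by the quadratic character of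
`E / K`, absolute convergence for `Re s > 2`, holomorphy for `Re s > 1 / 2` (Grbac and Shahidi) and
nonvanishing for `Re s ≥ 1` (Shahidi).

The theorems on the nontempered places and on large `|a_w|²` are in the library files
`Pool/Agent/R398/AS`; the lower tail and the statements about densities are added here.
-/

set_option autoImplicit false
set_option linter.unusedSectionVars false

namespace Pool.Agent.Results.MP_8410ab_nt.InertPlaceDensity

open NumberField IsDedekindDomain Filter Topology Pool.Agent.R398.AS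

variable {K E : Type} [Field K] [NumberField K] [Field E] [NumberField E] [Algebra K E]

open scoped Classical in
/-- Among the places `v ∉ S` of `K` which are inert in `E`, those for which the place `w` of `E` above
`v` satisfies `P` have upper Dirichlet density at most `c`. -/
def UpperDensityLe (S : Finset (HeightOneSpectrum (𝓞 K))) (P : HeightOneSpectrum (𝓞 E) → Prop) (c : ℝ) :
    Prop :=
  ∀ ε : ℝ, 0 < ε → ∀ᶠ t : ℝ in 𝓝[>] 1,
    ∑' v : {v : HeightOneSpectrum (𝓞 K) // v ∉ S ∧ Inert E v},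
        (if ∃ w, Above v.1 w ∧ P w then (Nm v.1 : ℝ) ^ (-t) else 0) ≤
      (c + ε) * ∑' v : {v : HeightOneSpectrum (𝓞 K) // v ∉ S ∧ Inert E v}, (Nm v.1 : ℝ) ^ (-t)

/-- The mean value over the inert places `v ∉ S` of `f w`, `w` the place of `E` above `v`, is `m`:
`∑ f w (N v)^(-t) / ∑ (N v)^(-t)` tends to `m` for `t → 1`. -/
def MeanValue (S : Finset (HeightOneSpectrum (𝓞 K))) (f : HeightOneSpectrum (𝓞 E) → ℝ) (m : ℝ) : Prop :=
  Tendsto (fun t : ℝ =>
    (∑' v : {v : HeightOneSpectrum (𝓞 K) // v ∉ S ∧ Inert E v}, f (up v.1 v.2.2) * (Nm v.1 : ℝ) ^ (-t)) /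
      ∑' v : {v : HeightOneSpectrum (𝓞 K) // v ∉ S ∧ Inert E v}, (Nm v.1 : ℝ) ^ (-t)) (𝓝[>] 1) (𝓝 m)

variable {S : Finset (HeightOneSpectrum (𝓞 K))}

open scoped Classical in
theorem density_of (h2 : Module.finrank K E = 2) {P : HeightOneSpectrum (𝓞 E) → Prop} {A C : ℝ}
    (hA : 0 < A)
    (h : ∀ t : ℝ, 1 < t → A * ∑' v : IP E S, (if P (up v.1 v.2.2) then (Nm v.1 : ℝ) ^ (-t) else 0) ≤
      ∑' v : IP E S, (Nm v.1 : ℝ) ^ (-t) + C) : UpperDensityLe (E := E) S P (1 / A) := by
  intro ε hε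
  have h3 := (inert_tendsto (K := K) (E := E) h2 S).eventually_ge_atTop (C / (A * ε))
  filter_upwards [h3, self_mem_nhdsWithin] with t ht ht1
  have h4 := h t ht1
  have e : ∀ v : IP E S, (∃ w, Above v.1 w ∧ P w) ↔ P (up v.1 v.2.2) := fun v =>
    ⟨fun ⟨w, hw, hp⟩ => by rwa [(above_iff v.2.2 w).1 hw] at hp,
      fun hp => ⟨_, (above_iff v.2.2 _).2 rfl, hp⟩⟩
  have e2 : (∑' v : IP E S, (if ∃ w, Above v.1 w ∧ P w then (Nm v.1 : ℝ) ^ (-t) else 0)) =
      ∑' v : IP E S, (if P (up v.1 v.2.2) then (Nm v.1 : ℝ) ^ (-t) else 0) :=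
    tsum_congr fun v => by simp only [e v]
  rw [e2]
  rw [div_le_iff₀ (by positivity)] at ht
  have h5 : ∑' v : IP E S, (if P (up v.1 v.2.2) then (Nm v.1 : ℝ) ^ (-t) else 0) ≤
      (∑' v : IP E S, (Nm v.1 : ℝ) ^ (-t) + C) / A := by
    rw [le_div_iff₀ hA, mul_comm]
    exact h4
  refine h5.trans ?_
  rw [div_le_iff₀ hA]
  have h6 : (1 / A + ε) * (∑' v : IP E S, (Nm v.1 : ℝ) ^ (-t)) * A =
      (∑' v : IP E S, (Nm v.1 : ℝ) ^ (-t)) + (∑' v : IP E S, (Nm v.1 : ℝ) ^ (-t)) * (A * ε) := by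
    field_simp
  rw [h6]
  linarith

open scoped Classical in
/-- the lower tail -/
theorem small {α : HeightOneSpectrum (𝓞 E) → Fin 2 → ℂ} (h : CuspidalGL2 S α)
    (h2 : Module.finrank K E = 2) (s : ℝ) (hs : 0 < s) :
    ∃ C : ℝ, ∀ t : ℝ, 1 < t →
      (1 + s ^ 2) * ∑' v : IP E S, (if zz (aw α v) ≤ 1 - s then (Nm v.1 : ℝ) ^ (-t) else 0) ≤
        ∑' v : IP E S, (Nm v.1 : ℝ) ^ (-t) + C := by
  set lam : ℝ := 1 + 1 / s with hlam
  obtain ⟨C, hC⟩ := quad h h2 lam
  have hq : 0 < s ^ 2 + 1 := by positivity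
  refine ⟨C * (s ^ 2 / (s ^ 2 + 1)), fun t ht => ?_⟩
  have h3 := hC t ht
  have s0 := summable_IP (E := E) (S := S) ht
  have s1 := summable_zz1 h h2 ht
  have s2 := summable_zz h h2 ht
  have hl : lam - (1 - s) = (s ^ 2 + 1) / s := by
    rw [hlam]
    field_simp
    ring
  have hl0 : 0 < lam - (1 - s) := by rw [hl]; positivity
  have h4 : (lam - (1 - s)) ^ 2 *
        ∑' v : IP E S, (if zz (aw α v) ≤ 1 - s then (Nm v.1 : ℝ) ^ (-t) else 0) ≤
      ∑' v : IP E S, (zz (aw α v) - lam) ^ 2 * (Nm v.1 : ℝ) ^ (-t) := by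
    rw [← tsum_mul_left]
    refine Summable.tsum_le_tsum (fun v => ?_) ?_ ?_
    · split_ifs with hv
      · refine mul_le_mul_of_nonneg_right ?_ (rp_nonneg v t)
        rw [← neg_sub lam, neg_sq]
        exact pow_le_pow_left₀ hl0.le (by linarith) 2
      · rw [mul_zero]
        exact mul_nonneg (sq_nonneg _) (rp_nonneg v t)
    · refine Summable.mul_left _ (Summable.of_nonneg_of_le (fun v => ?_) (fun v => ?_) s0)
      · split_ifs
        · exact rp_nonneg v t
        · exact le_rfl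
      · split_ifs
        · exact le_rfl
        · exact rp_nonneg v t
    · refine ((s2.sub (s1.mul_left (2 * lam))).add (s0.mul_left (lam ^ 2))).congr fun v => ?_
      ring
  have h5 := h4.trans h3
  have e1 : 1 + (1 - lam) ^ 2 = (s ^ 2 + 1) / s ^ 2 := by
    rw [hlam]
    field_simp
    ring
  rw [hl, e1] at h5
  have h6 := mul_le_mul_of_nonneg_right h5 (by positivity : (0 : ℝ) ≤ s ^ 2 / (s ^ 2 + 1))
  have e2 : ((s ^ 2 + 1) / s) ^ 2 *
      (∑' v : IP E S, (if zz (aw α v) ≤ 1 - s then (Nm v.1 : ℝ) ^ (-t) else 0)) *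
      (s ^ 2 / (s ^ 2 + 1)) =
      (1 + s ^ 2) * ∑' v : IP E S, (if zz (aw α v) ≤ 1 - s then (Nm v.1 : ℝ) ^ (-t) else 0) := by
    field_simp
    ring
  have e3 : ((s ^ 2 + 1) / s ^ 2 * (∑' v : IP E S, (Nm v.1 : ℝ) ^ (-t)) + C) *
      (s ^ 2 / (s ^ 2 + 1)) =
      (∑' v : IP E S, (Nm v.1 : ℝ) ^ (-t)) + C * (s ^ 2 / (s ^ 2 + 1)) := by
    field_simp
  rw [e2, e3] at h6
  exact h6

theorem mean_of (h2 : Module.finrank K E = 2) {f : HeightOneSpectrum (𝓞 E) → ℝ} {m C : ℝ}
    (hs : ∀ t : ℝ, 1 < t → Summable fun v : IP E S => f (up v.1 v.2.2) * (Nm v.1 : ℝ) ^ (-t))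
    (h : ∀ t : ℝ, 1 < t → |∑' v : IP E S, (f (up v.1 v.2.2) - m) * (Nm v.1 : ℝ) ^ (-t)| ≤ C) :
    MeanValue (E := E) S f m := by
  have h3 := inert_tendsto (K := K) (E := E) h2 S
  unfold MeanValue
  rw [tendsto_iff_norm_sub_tendsto_zero]
  have h0 : Tendsto (fun t : ℝ => C / ∑' v : IP E S, (Nm v.1 : ℝ) ^ (-t)) (𝓝[>] 1) (𝓝 0) :=
    h3.const_div_atTop C
  refine squeeze_zero' (Eventually.of_forall fun t => norm_nonneg _) ?_ h0
  filter_upwards [h3.eventually_gt_atTop 0, self_mem_nhdsWithin] with t ht ht1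
  have ht1' : (1 : ℝ) < t := ht1
  have s0 := summable_IP (E := E) (S := S) ht1'
  have e : (∑' v : IP E S, f (up v.1 v.2.2) * (Nm v.1 : ℝ) ^ (-t)) /
      (∑' v : IP E S, (Nm v.1 : ℝ) ^ (-t)) - m =
      (∑' v : IP E S, (f (up v.1 v.2.2) - m) * (Nm v.1 : ℝ) ^ (-t)) /
        (∑' v : IP E S, (Nm v.1 : ℝ) ^ (-t)) := by
    rw [eq_div_iff ht.ne', sub_mul, div_mul_cancel₀ _ ht.ne', ← tsum_mul_left,
      ← (hs t ht1').tsum_sub (s0.mul_left m)]
    exact tsum_congr fun v => by ring
  rw [e, norm_div, Real.norm_of_nonneg ht.le]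
  exact div_le_div_of_nonneg_right (h t ht1') ht.le

/-- **Density theorems for the inert places.** `E / K` is a quadratic extension of number fields and `α`
are the Satake parameters of a cuspidal representation `π` of `GL_2` over `E` with the properties
`CuspidalGL2`. The sum of `(N v)^(-t)` over the inert places tends to infinity for `t → 1`; at most
`1/10` of the inert places are nontempered for `π`; the second and fourth moments of `|a_w|` over the
inert places are `1` and `2`; and the bounds for the proportions of the large and of the small `|a_w|²`. -/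
theorem result {K E : Type} [Field K] [NumberField K] [Field E] [NumberField E] [Algebra K E]
    (h2 : Module.finrank K E = 2) (S : Finset (HeightOneSpectrum (𝓞 K)))
    (α : HeightOneSpectrum (𝓞 E) → Fin 2 → ℂ) (h : CuspidalGL2 S α) :
    Tendsto (fun t : ℝ => ∑' v : {v : HeightOneSpectrum (𝓞 K) // v ∉ S ∧ Inert E v},
      (Nm v.1 : ℝ) ^ (-t)) (𝓝[>] 1) atTop ∧
    UpperDensityLe S (fun w => ¬ ∀ i, ‖α w i‖ = 1) (1 / 10) ∧
    MeanValue S (fun w => ‖∑ i, α w i‖ ^ 2) 1 ∧
    MeanValue S (fun w => ‖∑ i, α w i‖ ^ 4) 2 ∧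
    (∀ Z : ℝ, 1 < Z → UpperDensityLe S (fun w => Z ≤ ‖∑ i, α w i‖ ^ 2) (1 / (1 + (Z - 1) ^ 2))) ∧
    ∀ s : ℝ, 0 < s → UpperDensityLe S (fun w => ‖∑ i, α w i‖ ^ 2 ≤ 1 - s) (1 / (1 + s ^ 2)) := by
  classical
  refine ⟨inert_tendsto h2 S, ?_, ?_, ?_, fun Z hZ => ?_, fun s hs => ?_⟩
  · obtain ⟨C, hC⟩ := nontempered h h2
    refine density_of h2 (by norm_num : (0 : ℝ) < 10) (C := C) fun t ht => ?_
    refine le_trans (le_of_eq ?_) (hC t ht)
    congr 1
    refine tsum_congr fun v => ?_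
    have : (∀ i, ‖aw α v i‖ = 1) ↔ ∀ i, ‖α (up v.1 v.2.2) i‖ = 1 := Iff.rfl
    by_cases hv : ∀ i, ‖α (up v.1 v.2.2) i‖ = 1
    · rw [if_neg (not_not.2 hv), if_pos (this.2 hv)]
    · rw [if_pos hv, if_neg (fun hc => hv (this.1 hc))]
  · obtain ⟨C, hC⟩ := mean_one h h2
    exact mean_of h2 (fun t ht => summable_zz1 h h2 ht) hC
  · obtain ⟨C, hC⟩ := mean_two h h2
    have e : (fun w : HeightOneSpectrum (𝓞 E) => ‖∑ i, α w i‖ ^ 4) = fun w => zz (α w) ^ 2 := by
      funext w
      unfold zz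
      ring
    rw [e]
    exact mean_of h2 (fun t ht => summable_zz h h2 ht) hC
  · obtain ⟨C, hC⟩ := large h h2 Z hZ
    refine density_of h2 (by positivity) (C := C) fun t ht => ?_
    refine le_trans (le_of_eq ?_) (hC t ht)
    congr 1
  · obtain ⟨C, hC⟩ := small h h2 s hs
    refine density_of h2 (by positivity) (C := C) fun t ht => ?_
    refine le_trans (le_of_eq ?_) (hC t ht)
    congr 1

end Pool.Agent.Results.MP_8410ab_nt.InertPlaceDensity
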